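import Pool.Agent.H18.XZ.TD

/-!
# BFO: it is a formula whether protocols with few moves are right too often
-/

set_option autoImplicit false

namespace Pool.Agent.H15.XZ.BFO

open Finset Pool.Agent.H6.NB Pool.Agent.H70.OQ Pool.Agent.H70.EH Pool.Agent.H70.EI Pool.Agent.H78.XQ
open Pool.Agent.H66.IQ Pool.Agent.H66.AV Pool.Agent.H18.XZ
open Pool.Agent.H18.XX (bd)

/-- a Boolean function of few formulas is a formula -/
theorem dnf (hC : Pool.Agent.H6.NB.T_CLB) (X ι : Type) [Fintype ι] (S d : ℕ) (hS : 2 ≤ S)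
    (hN : 2 ^ Fintype.card ι ≤ S) (h : ι → (X → Bool) → Bool) (hh : ∀ i, Cl X S d (h i))
    (Φ : (ι → Bool) → Bool) : Cl X S (d + 2) fun y => Φ fun i => h i y := by
  classical
  obtain ⟨-, -, h3, -, -⟩ := hC X S hS
  have hc : Fintype.card ι ≤ S := (Nat.lt_two_pow_self.le).trans hN
  have h4 : ∀ a : ι → Bool, Cl X S (d + 1) fun y => decide (∃ i, h i y = !(a i)) := fun a =>
    h3 d ι h (fun i => !(a i)) _ hc hh (fun y => by rw [decide_eq_true_iff])
  refine h3 (d + 1) {a : ι → Bool // Φ a = true}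
    (fun a y => decide (∃ i, h i y = !(a.1 i))) (fun _ => false) _ ?_ (fun a => h4 a.1) ?_
  · refine (Fintype.card_subtype_le _).trans ?_
    rw [Fintype.card_fun, Fintype.card_bool]
    exact hN
  · intro y
    constructor
    · intro hy
      refine ⟨⟨fun i => h i y, hy⟩, ?_⟩
      rw [decide_eq_false_iff_not]
      rintro ⟨i, hi⟩
      have hi' : h i y = !(h i y) := hi
      cases hx : h i y <;> simp [hx] at hi'
    · rintro ⟨⟨a, ha⟩, hy⟩
      rw [decide_eq_false_iff_not] at hy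
      have : (fun i => h i y) = a := by
        funext i
        by_contra hne
        refine hy ⟨i, ?_⟩
        cases hx : h i y <;> cases hy : a i <;> simp_all
      rw [this]
      exact ha

/-- the value is a function of the results of the examinations -/
theorem leaves {k : ℕ} (m : ℕ) (G : Prot k) (hG : G.Tests m) :
    ∃ (ι : Type) (_ : Fintype ι) (ex : ι → Exam k) (Ψ : (ι → Bool) → ℝ),
      Fintype.card ι ≤ 2 ^ G.moves ∧ (∀ i, (ex i).depth ≤ m ∧ (ex i).Small m) ∧
      ∀ O, G.val O = Ψ fun i => (ex i).eval O := by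
  induction G with
  | test T =>
    refine ⟨Unit, inferInstance, fun _ => T, fun a => if a () = true then 1 else 0, ?_, ?_, ?_⟩
    · simp [Prot.moves]
    · exact fun _ => hG
    · intro O
      rfl
  | coin l r hl hr =>
    obtain ⟨ι, _, ex, Ψ, h1, h2, h3⟩ := hl hG.1
    obtain ⟨ι', _, ex', Ψ', h1', h2', h3'⟩ := hr hG.2
    refine ⟨ι ⊕ ι', inferInstance, Sum.elim ex ex',
      fun a => (Ψ (fun i => a (Sum.inl i)) + Ψ' (fun i => a (Sum.inr i))) / 2, ?_, ?_, ?_⟩
    · rw [Fintype.card_sum]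
      have e1 : 2 ^ l.moves ≤ 2 ^ max l.moves r.moves :=
        Nat.pow_le_pow_right (by norm_num) (le_max_left _ _)
      have e2 : 2 ^ r.moves ≤ 2 ^ max l.moves r.moves :=
        Nat.pow_le_pow_right (by norm_num) (le_max_right _ _)
      have e3 : 2 ^ (Prot.coin l r).moves = 2 * 2 ^ max l.moves r.moves := by
        simp only [Prot.moves]
        rw [pow_succ, mul_comm]
      rw [e3]
      omega
    · rintro (i | i)
      · exact h2 i
      · exact h2' i
    · intro O
      simp only [Prot.val, h3 O, h3' O, Sum.elim_inl, Sum.elim_inr]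
  | say l r hl hr =>
    obtain ⟨ι, _, ex, Ψ, h1, h2, h3⟩ := hl hG.1
    obtain ⟨ι', _, ex', Ψ', h1', h2', h3'⟩ := hr hG.2
    refine ⟨ι ⊕ ι', inferInstance, Sum.elim ex ex',
      fun a => max (Ψ (fun i => a (Sum.inl i))) (Ψ' (fun i => a (Sum.inr i))), ?_, ?_, ?_⟩
    · rw [Fintype.card_sum]
      have e1 : 2 ^ l.moves ≤ 2 ^ max l.moves r.moves :=
        Nat.pow_le_pow_right (by norm_num) (le_max_left _ _)
      have e2 : 2 ^ r.moves ≤ 2 ^ max l.moves r.moves :=
        Nat.pow_le_pow_right (by norm_num) (le_max_right _ _)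
      have e3 : 2 ^ (Prot.say l r).moves = 2 * 2 ^ max l.moves r.moves := by
        simp only [Prot.moves]
        rw [pow_succ, mul_comm]
      rw [e3]
      omega
    · rintro (i | i)
      · exact h2 i
      · exact h2' i
    · intro O
      simp only [Prot.val, h3 O, h3' O, Sum.elim_inl, Sum.elim_inr]

open Classical in
theorem pf_BFO (hL : T_LCX) (hC : Pool.Agent.H6.NB.T_CLB) : T_BFO := by
  intro k
  refine ⟨25 * (k + 30), fun n hn r hr G hG hmv X O hO b => ?_⟩
  have hnr : n < 25 * r := by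
    rw [Nat.div_lt_iff_lt_mul (by norm_num)] at hr
    linarith
  have hr0 : k + 30 ≤ r := by omega
  obtain ⟨s, rfl⟩ : ∃ s, r = s + 1 := ⟨r - 1, by omega⟩
  have hbd : bd (s + 1) = 2 ^ (2 * ((s + 1) * s)) := by
    unfold bd
    congr 2
    have : (s + 1) ^ 2 = (s + 1) * s + (s + 1) := by ring
    rw [this, Nat.add_sub_cancel]
  have hN1 : n + n ^ 2 / 1000 ≤ 2 * ((s + 1) * s) := by
    have h1 : n ^ 2 / 1000 * 1000 ≤ n ^ 2 := Nat.div_mul_le_self _ _
    have h2 : n ^ 2 ≤ (25 * (s + 1)) ^ 2 := Nat.pow_le_pow_left hnr.le 2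
    nlinarith
  have hm1 : 2 ^ (n / 16) + 1 ≤ bd (s + 1) := by
    have h1 : n / 16 + 1 ≤ 2 * ((s + 1) * s) := by
      have : n / 16 ≤ n := Nat.div_le_self _ _
      nlinarith
    rw [hbd]
    calc 2 ^ (n / 16) + 1 ≤ 2 ^ (n / 16) * 2 := by
          have : 1 ≤ 2 ^ (n / 16) := Nat.one_le_two_pow
          omega
      _ = 2 ^ (n / 16 + 1) := by rw [pow_succ]
      _ ≤ _ := Nat.pow_le_pow_right (by norm_num) h1
  have hS2 : 2 ≤ 2 ^ bd (s + 1) := by
    have : 1 ≤ bd (s + 1) := le_trans (Nat.le_add_left 1 _) hm1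
    calc 2 = 2 ^ 1 := by norm_num
      _ ≤ _ := Nat.pow_le_pow_right (by norm_num) this
  choose ι hι ex Ψ hc hex hval using fun x => leaves (2 ^ (n / 16)) (G x) (hG x).2
  have hcard : 2 ^ Fintype.card (Σ x, ι x) ≤ 2 ^ bd (s + 1) := by
    refine Nat.pow_le_pow_right (by norm_num) ?_
    rw [Fintype.card_sigma]
    have h1 : ∀ x, Fintype.card (ι x) ≤ 2 ^ (n ^ 2 / 1000) := by
      intro x
      refine (hc x).trans (Nat.pow_le_pow_right (by norm_num) ?_)
      rw [Nat.le_div_iff_mul_le (by norm_num)]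
      have := hmv x
      linarith
    calc ∑ x, Fintype.card (ι x) ≤ ∑ _x : Fin n → Bool, 2 ^ (n ^ 2 / 1000) :=
          Finset.sum_le_sum fun x _ => h1 x
      _ = 2 ^ (n + n ^ 2 / 1000) := by
          rw [Finset.sum_const, card_univ, Fintype.card_fun, Fintype.card_bool, Fintype.card_fin,
            smul_eq_mul, ← pow_add]
      _ ≤ bd (s + 1) := by
          rw [hbd]
          exact Nat.pow_le_pow_right (by norm_num) hN1
  have key := dnf hC X (Σ x, ι x) (2 ^ bd (s + 1)) (k + 5) hS2 hcard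
    (fun p y => (ex p.1 p.2).eval (O y))
    (fun p => hL X k (2 ^ (n / 16)) (2 ^ bd (s + 1)) (ex p.1 p.2) O hS2
      (Nat.pow_le_pow_right (by norm_num) hm1) hO (hex p.1 p.2).1 (hex p.1 p.2).2)
    (fun a => decide ((1 / 2 + (1 / 2 : ℝ) ^ (n / 64)) * 2 ^ n <
      ((univ.filter fun x => ((b x = false → 2 / 3 ≤ Ψ x fun i => a ⟨x, i⟩) ∧
        (¬ b x = false → (Ψ x fun i => a ⟨x, i⟩) ≤ 1 / 3))).card : ℝ)))
  have key2 := (hC X (2 ^ bd (s + 1)) hS2).2.1 (k + 5 + 2) (s + 1) _ (by omega) key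
  have e : (fun y => decide (Bdr G b (O y))) = fun y =>
      decide ((1 / 2 + (1 / 2 : ℝ) ^ (n / 64)) * 2 ^ n <
      ((univ.filter fun x => ((b x = false → 2 / 3 ≤ Ψ x fun i => (ex x i).eval (O y)) ∧
        (¬ b x = false → (Ψ x fun i => (ex x i).eval (O y)) ≤ 1 / 3))).card : ℝ)) := by
    funext y
    unfold Bdr Prot.Proves
    simp only [hval]
  rw [e]
  exact key2

end Pool.Agent.H15.XZ.BFO
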