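import Pool.Agent.H18.XZ.TE
import Pool.Agent.H15.XZ.BFO

/-!
# BFC: it is a formula whether protocols with few coins are right too often
-/

set_option autoImplicit false

namespace Pool.Agent.H15.XZ.BFC

open Finset Pool.Agent.H6.NB Pool.Agent.H70.OQ Pool.Agent.H70.EH Pool.Agent.H70.EI Pool.Agent.H78.XQ
open Pool.Agent.H66.IQ Pool.Agent.H66.AV Pool.Agent.H18.XZ
open Pool.Agent.H18.XX (bd)

open Classical in
/-- a disjunction of conjunctions of formulas -/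
theorem orand (hC : Pool.Agent.H6.NB.T_CLB) (X : Type) {k : ℕ} (S d : ℕ) (hS : 2 ≤ S)
    (F : List (List (Exam k))) (O : (X → Bool) → List Bool → Bool) (hF : F.length ≤ S)
    (hA : ∀ A ∈ F, A.length ≤ S)
    (h : ∀ A ∈ F, ∀ T ∈ A, Cl X S d fun y => T.eval (O y)) :
    Cl X S (d + 2) fun y => decide (∃ A ∈ F, ∀ T ∈ A, T.eval (O y) = true) := by
  obtain ⟨-, -, -, h4, -⟩ := hC X S hS
  refine h4 (d + 1) (F.map fun A => (fun y => decide (∃ T ∈ A, T.eval (O y) = false), false)) _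
    (by rw [List.length_map]; exact hF) ?_ ?_
  · intro c hc
    obtain ⟨A, hAF, rfl⟩ := List.mem_map.1 hc
    refine h4 d (A.map fun T => (fun y => T.eval (O y), false)) _
      (by rw [List.length_map]; exact hA A hAF) ?_ ?_
    · intro c hc
      obtain ⟨T, hT, rfl⟩ := List.mem_map.1 hc
      exact h A hAF T hT
    · intro y
      rw [decide_eq_true_iff]
      constructor
      · rintro ⟨T, hT, hT'⟩
        exact ⟨_, List.mem_map.2 ⟨T, hT, rfl⟩, hT'⟩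
      · rintro ⟨c, hc, hc'⟩
        obtain ⟨T, hT, rfl⟩ := List.mem_map.1 hc
        exact ⟨T, hT, hc'⟩
  · intro y
    rw [decide_eq_true_iff]
    constructor
    · rintro ⟨A, hAF, hA'⟩
      refine ⟨_, List.mem_map.2 ⟨A, hAF, rfl⟩, ?_⟩
      show decide (∃ T ∈ A, T.eval (O y) = false) = false
      rw [decide_eq_false_iff_not]
      rintro ⟨T, hT, hT'⟩
      rw [hA' T hT] at hT'
      cases hT'
    · rintro ⟨c, hc, hc'⟩
      obtain ⟨A, hAF, rfl⟩ := List.mem_map.1 hc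
      refine ⟨A, hAF, fun T hT => ?_⟩
      have h5 : decide (∃ T ∈ A, T.eval (O y) = false) = false := hc'
      rw [decide_eq_false_iff_not] at h5
      by_contra h6
      exact h5 ⟨T, hT, by simpa using h6⟩

/-- a multiple of `2 ^ (-μ)` is at least `2 / 3` -/
theorem ge_iff (μ : ℕ) (v : ℝ) (h : ∃ t : ℕ, 2 ^ μ * v = (t : ℝ)) :
    2 / 3 ≤ v ↔ ((⌈(2 / 3 : ℝ) * 2 ^ μ⌉₊ : ℕ) : ℝ) ≤ 2 ^ μ * v := by
  obtain ⟨t, ht⟩ := h
  have hp : (0 : ℝ) < 2 ^ μ := by positivity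
  rw [ht, Nat.cast_le, Nat.ceil_le, ← ht, mul_comm, mul_le_mul_iff_right₀ hp]

/-- a multiple of `2 ^ (-μ)` is at most `1 / 3` -/
theorem le_iff (μ : ℕ) (v : ℝ) (h : ∃ t : ℕ, 2 ^ μ * v = (t : ℝ)) :
    v ≤ 1 / 3 ↔ ¬ (((⌊(1 / 3 : ℝ) * 2 ^ μ⌋₊ + 1 : ℕ) : ℝ) ≤ 2 ^ μ * v) := by
  obtain ⟨t, ht⟩ := h
  have hp : (0 : ℝ) < 2 ^ μ := by positivity
  have h1 : v ≤ 1 / 3 ↔ t ≤ ⌊(1 / 3 : ℝ) * 2 ^ μ⌋₊ := by
    rw [Nat.le_floor_iff (by positivity), ← ht, mul_comm (1 / 3 : ℝ), mul_le_mul_iff_right₀ hp]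
  rw [ht, Nat.cast_le, h1]
  omega

open Classical in
theorem pf_BFC (hD : T_DNP) (hY : T_DYA) (hL : T_LCX) (hC : Pool.Agent.H6.NB.T_CLB) : T_BFC := by
  intro k
  refine ⟨25 * (k + 30) + 1000, fun n hn r hr G hG hmv X O hO b => ?_⟩
  have hnr : n < 25 * r := by
    rw [Nat.div_lt_iff_lt_mul (by norm_num)] at hr
    linarith
  have hr0 : k + 30 ≤ r := by omega
  obtain ⟨s, rfl⟩ : ∃ s, r = s + 1 := ⟨r - 1, by omega⟩
  have hs40 : 40 ≤ s := by omega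
  have hbd : bd (s + 1) = 2 ^ (2 * ((s + 1) * s)) := by
    unfold bd
    congr 2
    have : (s + 1) ^ 2 = (s + 1) * s + (s + 1) := by ring
    rw [this, Nat.add_sub_cancel]
  have hq : n ^ 2 / 1000 * 1000 ≤ n ^ 2 := Nat.div_mul_le_self _ _
  have hq2 : n ^ 2 ≤ (25 * (s + 1)) ^ 2 := Nat.pow_le_pow_left hnr.le 2
  have hn16 : n / 16 ≤ 25 * (s + 1) / 16 := Nat.div_le_div_right hnr.le
  have hn16' : n / 16 * 16 ≤ 25 * (s + 1) := by omega
  obtain ⟨μ, hμ⟩ : ∃ μ, μ = n ^ 2 / 1000 := ⟨_, rfl⟩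
  rw [← hμ] at hq
  have hE : 2 * μ + 3 + (n / 16 + 1) ≤ 2 * ((s + 1) * s) := by
    nlinarith
  have hE1 : 2 ^ (μ + 1) * (2 ^ (n / 16) + μ + 2) ≤ bd (s + 1) := by
    have h1 : μ + 2 ≤ 2 ^ (μ + 1) := Nat.lt_two_pow_self
    have h2 : 1 ≤ 2 ^ (n / 16) := Nat.one_le_two_pow
    have h3 : 2 ^ (n / 16) + μ + 2 ≤ 2 ^ (n / 16) * (2 ^ (μ + 1) * 2) := by
      nlinarith
    rw [hbd]
    calc 2 ^ (μ + 1) * (2 ^ (n / 16) + μ + 2) ≤
          2 ^ (μ + 1) * (2 ^ (n / 16) * (2 ^ (μ + 1) * 2)) := Nat.mul_le_mul_left _ h3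
      _ = 2 ^ (2 * μ + 3 + n / 16) := by
          rw [show 2 * μ + 3 + n / 16 = (μ + 1) + (n / 16 + ((μ + 1) + 1)) by ring]
          simp only [pow_add, pow_one]
      _ ≤ _ := Nat.pow_le_pow_right (by norm_num) (by omega)
  have hE2 : 2 ^ μ ≤ 2 ^ bd (s + 1) := by
    refine Nat.pow_le_pow_right (by norm_num) ?_
    refine le_trans ?_ (Nat.lt_two_pow_self.le.trans (le_of_eq hbd.symm))
    omega
  have hm1 : 2 ^ (n / 16) + 1 ≤ bd (s + 1) := by
    rw [hbd]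
    calc 2 ^ (n / 16) + 1 ≤ 2 ^ (n / 16) * 2 := by
          have : 1 ≤ 2 ^ (n / 16) := Nat.one_le_two_pow
          omega
      _ = 2 ^ (n / 16 + 1) := by rw [pow_succ]
      _ ≤ _ := Nat.pow_le_pow_right (by norm_num) (by omega)
  have hS2 : 2 ≤ 2 ^ bd (s + 1) := by
    have : 1 ≤ bd (s + 1) := le_trans (Nat.le_add_left 1 _) hm1
    calc 2 = 2 ^ 1 := by norm_num
      _ ≤ _ := Nat.pow_le_pow_right (by norm_num) this
  have hco : ∀ x, coins (G x) ≤ μ := by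
    intro x
    rw [hμ, Nat.le_div_iff_mul_le (by norm_num)]
    have := hmv x
    linarith
  obtain ⟨a, ha⟩ : ∃ a, a = ⌈(2 / 3 : ℝ) * 2 ^ μ⌉₊ := ⟨_, rfl⟩
  obtain ⟨c, hc⟩ : ∃ c, c = ⌊(1 / 3 : ℝ) * 2 ^ μ⌋₊ + 1 := ⟨_, rfl⟩
  have ha0 : 0 < a := by
    rw [ha, Nat.ceil_pos]
    positivity
  have hc0 : 0 < c := by omega
  have ht0 : ∀ β : Bool, 0 < (if β = true then a else c) := by
    intro β
    split_ifs
    · exact ha0
    · exact hc0
  choose F hF1 hF2 hF3 using fun p : (Fin n → Bool) × Bool =>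
    hD k (2 ^ (n / 16)) μ (G p.1) (hG p.1) (hco p.1) (if p.2 = true then a else c) (ht0 p.2)
  have hcard : 2 ^ Fintype.card ((Fin n → Bool) × Bool) ≤ 2 ^ bd (s + 1) := by
    refine Nat.pow_le_pow_right (by norm_num) ?_
    rw [Fintype.card_prod, Fintype.card_fun, Fintype.card_bool, Fintype.card_fin, hbd, ← pow_succ]
    refine Nat.pow_le_pow_right (by norm_num) ?_
    nlinarith
  have key := Pool.Agent.H15.XZ.BFO.dnf hC X ((Fin n → Bool) × Bool) (2 ^ bd (s + 1)) (k + 5 + 2)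
    hS2 hcard
    (fun p y => decide (∃ A ∈ F p, ∀ T ∈ A, T.eval (O y) = true))
    (fun p => orand hC X (2 ^ bd (s + 1)) (k + 5) hS2 (F p) O
      ((hF1 p).trans (Nat.pow_le_pow_right (by norm_num) hE1))
      (fun A hA => ((hF2 p A hA).1).trans hE2)
      (fun A hA T hT => hL X k (2 ^ (n / 16)) (2 ^ bd (s + 1)) T O hS2
        (Nat.pow_le_pow_right (by norm_num) hm1) hO ((hF2 p A hA).2 T hT).1
        ((hF2 p A hA).2 T hT).2))
    (fun f => decide ((1 / 2 + (1 / 2 : ℝ) ^ (n / 64)) * 2 ^ n <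
      ((univ.filter fun x => ((b x = false → f (x, true) = true) ∧
        (¬ b x = false → ¬ f (x, false) = true))).card : ℝ)))
  have key2 := (hC X (2 ^ bd (s + 1)) hS2).2.1 (k + 5 + 2 + 2) (s + 1) _ (by omega) key
  have e : (fun y => decide (Bdr G b (O y))) = fun y =>
      decide ((1 / 2 + (1 / 2 : ℝ) ^ (n / 64)) * 2 ^ n <
      ((univ.filter fun x => ((b x = false →
          decide (∃ A ∈ F (x, true), ∀ T ∈ A, T.eval (O y) = true) = true) ∧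
        (¬ b x = false →
          ¬ decide (∃ A ∈ F (x, false), ∀ T ∈ A, T.eval (O y) = true) = true))).card : ℝ)) := by
    funext y
    have h1 : ∀ x, (2 / 3 ≤ (G x).val (O y) ↔
        ∃ A ∈ F (x, true), ∀ T ∈ A, T.eval (O y) = true) := by
      intro x
      have h := hF3 (x, true) (O y)
      rw [← h, ge_iff μ _ (hY k μ (G x) (hco x) (O y)), ← ha]
      simp
    have h2 : ∀ x, ((G x).val (O y) ≤ 1 / 3 ↔
        ¬ ∃ A ∈ F (x, false), ∀ T ∈ A, T.eval (O y) = true) := by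
      intro x
      have h := hF3 (x, false) (O y)
      rw [← h, le_iff μ _ (hY k μ (G x) (hco x) (O y)), ← hc]
      simp
    unfold Bdr Prot.Proves
    simp only [h1, h2, decide_eq_true_eq]
  rw [e]
  exact key2

end Pool.Agent.H15.XZ.BFC
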