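import Pool.Agent.H18.XZ.TA

/-!
# HFS: Hoeffding's inequality for random signs
-/

set_option autoImplicit false

namespace Pool.Agent.H15.XZ

open Finset Pool.Agent.H18.XZ
open Pool.Agent.H66.AV (sg)

lemma abs_sg (b : Bool) : |(sg b : ℝ)| = 1 := by
  cases b <;> simp [sg]

/-- the exponential moment -/
lemma expm (ι : Type) [Fintype ι] [DecidableEq ι] (c : ι → ℝ) (l : ℝ)
    (hc : ∀ i, |c i| ≤ 1 / 2) :
    ∑ b : ι → Bool, Real.exp (l * ∑ i, sg (b i) * c i) ≤
      2 ^ Fintype.card ι * Real.exp (l ^ 2 * Fintype.card ι / 8) := by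
  have h1 : ∀ b : ι → Bool, Real.exp (l * ∑ i, sg (b i) * c i) =
      ∏ i, Real.exp (l * (sg (b i) * c i)) := by
    intro b
    rw [← Real.exp_sum, Finset.mul_sum]
  have h2 : ∑ b : ι → Bool, ∏ i, Real.exp (l * (sg (b i) * c i)) =
      ∏ i : ι, ∑ a : Bool, Real.exp (l * (sg a * c i)) := by
    rw [Finset.prod_univ_sum, Fintype.piFinset_univ]
  have h3 : ∀ i : ι, ∑ a : Bool, Real.exp (l * (sg a * c i)) ≤ 2 * Real.exp (l ^ 2 / 8) := by
    intro i
    have h4 : ∑ a : Bool, Real.exp (l * (sg a * c i)) = 2 * Real.cosh (l * c i) := by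
      rw [Fintype.sum_bool, Real.cosh_eq]
      simp [sg]
      ring_nf
    rw [h4]
    have h5 := Real.cosh_le_exp_half_sq (l * c i)
    have h6 : (l * c i) ^ 2 / 2 ≤ l ^ 2 / 8 := by
      have h7 : c i ^ 2 ≤ 1 / 4 := by
        have := hc i
        rw [← sq_abs]
        nlinarith [abs_nonneg (c i)]
      have h8 : l ^ 2 * c i ^ 2 ≤ l ^ 2 * (1 / 4) := mul_le_mul_of_nonneg_left h7 (sq_nonneg l)
      nlinarith
    have h9 := Real.exp_le_exp.mpr h6
    linarith
  calc ∑ b : ι → Bool, Real.exp (l * ∑ i, sg (b i) * c i)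
      = ∏ i : ι, ∑ a : Bool, Real.exp (l * (sg a * c i)) := by
        rw [← h2]
        exact Finset.sum_congr rfl fun b _ => h1 b
    _ ≤ ∏ _i : ι, (2 * Real.exp (l ^ 2 / 8)) :=
        Finset.prod_le_prod (fun i _ => Finset.sum_nonneg fun a _ => (Real.exp_pos _).le)
          fun i _ => h3 i
    _ = 2 ^ Fintype.card ι * Real.exp (l ^ 2 * Fintype.card ι / 8) := by
        rw [Finset.prod_const, Finset.card_univ, mul_pow, ← Real.exp_nat_mul]
        congr 2
        ring

/-- one side -/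
lemma one (ι : Type) [Fintype ι] [DecidableEq ι] (c : ι → ℝ) (μ : ℝ)
    (hc : ∀ i, |c i| ≤ 1 / 2) (hμ : 0 ≤ μ) :
    ((univ.filter fun b : ι → Bool => μ ≤ ∑ i, sg (b i) * c i).card : ℝ) ≤
      2 ^ Fintype.card ι * Real.exp (-(2 * μ ^ 2 / Fintype.card ι)) := by
  rcases Nat.eq_zero_or_pos (Fintype.card ι) with h0 | h0
  · have h1 : (univ.filter fun b : ι → Bool => μ ≤ ∑ i, sg (b i) * c i).card ≤ 1 := by
      have : (univ : Finset (ι → Bool)).card = 1 := by
        rw [Finset.card_univ, Fintype.card_fun, h0, pow_zero]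
      exact this ▸ Finset.card_le_card (Finset.filter_subset _ _)
    have h2 : ((univ.filter fun b : ι → Bool => μ ≤ ∑ i, sg (b i) * c i).card : ℝ) ≤ 1 := by
      exact_mod_cast h1
    rw [h0]
    simpa using h2
  · have hn : (0 : ℝ) < Fintype.card ι := by exact_mod_cast h0
    obtain ⟨n, hn'⟩ : ∃ n : ℝ, n = Fintype.card ι := ⟨_, rfl⟩
    obtain ⟨l, hl⟩ : ∃ l : ℝ, l = 4 * μ / n := ⟨_, rfl⟩
    have hn0 : 0 < n := hn' ▸ hn
    have hl0 : 0 ≤ l := by rw [hl]; positivity
    have h1 := expm ι c l hc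
    have h2 : ((univ.filter fun b : ι → Bool => μ ≤ ∑ i, sg (b i) * c i).card : ℝ) *
        Real.exp (l * μ) ≤ ∑ b : ι → Bool, Real.exp (l * ∑ i, sg (b i) * c i) := by
      calc ((univ.filter fun b : ι → Bool => μ ≤ ∑ i, sg (b i) * c i).card : ℝ) * Real.exp (l * μ)
          = ∑ _b ∈ univ.filter (fun b : ι → Bool => μ ≤ ∑ i, sg (b i) * c i),
              Real.exp (l * μ) := by
            rw [Finset.sum_const, nsmul_eq_mul]
        _ ≤ ∑ b ∈ univ.filter (fun b : ι → Bool => μ ≤ ∑ i, sg (b i) * c i),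
              Real.exp (l * ∑ i, sg (b i) * c i) := by
            refine Finset.sum_le_sum fun b hb => ?_
            rw [Finset.mem_filter] at hb
            exact Real.exp_le_exp.mpr (mul_le_mul_of_nonneg_left hb.2 hl0)
        _ ≤ _ := Finset.sum_le_sum_of_subset_of_nonneg (Finset.filter_subset _ _)
            fun b _ _ => (Real.exp_pos _).le
    rw [← hn'] at h1 ⊢
    have h3 : l ^ 2 * n / 8 - l * μ = -(2 * μ ^ 2 / n) := by
      rw [hl]
      field_simp
      ring
    have h4 : ((univ.filter fun b : ι → Bool => μ ≤ ∑ i, sg (b i) * c i).card : ℝ) ≤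
        (2 ^ Fintype.card ι * Real.exp (l ^ 2 * n / 8)) / Real.exp (l * μ) := by
      rw [le_div_iff₀ (Real.exp_pos _)]
      exact h2.trans h1
    rw [mul_div_assoc, ← Real.exp_sub, h3] at h4
    exact h4

theorem pf_HFS : T_HFS := by
  intro ι _ _ c μ hc hμ
  have h1 := one ι c μ hc hμ
  have h2 := one ι (fun i => -c i) μ (fun i => by rw [abs_neg]; exact hc i) hμ
  have h3 : (univ.filter fun b : ι → Bool => μ ≤ |∑ i, sg (b i) * c i|) ⊆
      (univ.filter fun b : ι → Bool => μ ≤ ∑ i, sg (b i) * c i) ∪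
        (univ.filter fun b : ι → Bool => μ ≤ ∑ i, sg (b i) * -c i) := by
    intro b hb
    rw [Finset.mem_filter] at hb
    rw [Finset.mem_union, Finset.mem_filter, Finset.mem_filter]
    rcases le_abs.mp hb.2 with h | h
    · exact Or.inl ⟨hb.1, h⟩
    · refine Or.inr ⟨hb.1, ?_⟩
      have : ∑ i, sg (b i) * -c i = -∑ i, sg (b i) * c i := by
        rw [← Finset.sum_neg_distrib]
        exact Finset.sum_congr rfl fun i _ => by ring
      rw [this]
      exact h
  have h4 : ((univ.filter fun b : ι → Bool => μ ≤ |∑ i, sg (b i) * c i|).card : ℝ) ≤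
      ((univ.filter fun b : ι → Bool => μ ≤ ∑ i, sg (b i) * c i).card : ℝ) +
        ((univ.filter fun b : ι → Bool => μ ≤ ∑ i, sg (b i) * -c i).card : ℝ) := by
    exact_mod_cast (Finset.card_le_card h3).trans (Finset.card_union_le _ _)
  linarith

end Pool.Agent.H15.XZ
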